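import Pool.Agent.Helper63.XP.StA

/-!
# Project XP (MP_c973ff_an), module PRC: the `l^2` norm and the cores of the product graph
-/

set_option autoImplicit false

namespace Pool.Agent.Helper28.XP

open Finset
open Pool.Agent.Helper63.XP

section general

variable {k : ℕ} {V W : Fin k → Type}

lemma mem_down (R : Finset (Fin k)) (hR : ∀ i j : Fin k, i < j → j ∈ R → i ∈ R) (j : Fin k) :
    j ∈ R ↔ (j : ℕ) < R.card := by
  constructor
  · intro hj
    have h1 : Finset.Iic j ⊆ R := by
      intro i hi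
      rcases (Finset.mem_Iic.1 hi).lt_or_eq with h | h
      · exact hR i j h hj
      · exact h ▸ hj
    have h2 := Finset.card_le_card h1
    rw [Fin.card_Iic] at h2
    omega
  · intro hj
    by_contra hn
    have h1 : R ⊆ Finset.Iio j := by
      intro i hi
      rw [Finset.mem_Iio]
      by_contra h2
      rcases (not_lt.1 h2).lt_or_eq with h | h
      · exact hn (hR j i h hi)
      · exact hn (h ▸ hi)
    have h2 := Finset.card_le_card h1
    rw [Fin.card_Iio] at h2
    omega

lemma right_iff (u : PT V W) (j : Fin k) : (u.1 j).isRight = true ↔ (j : ℕ) < plev u := by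
  have h := mem_down (univ.filter fun j => (u.1 j).isRight = true)
    (fun i j hij hj => by
      simp only [mem_filter, mem_univ, true_and] at hj ⊢
      exact u.2 i j hij hj) j
  simpa only [mem_filter, mem_univ, true_and, plev] using h

/-- the coordinates before `j` are right, those after `j` are left -/
def Md (j : Fin k) (u : PT V W) : Prop :=
  (∀ i, i < j → (u.1 i).isRight = true) ∧ ∀ i, j < i → ¬ (u.1 i).isRight = true

lemma Md_upd (j : Fin k) (u : PT V W) (h : Md j u) (x : V j ⊕ W j) (i i' : Fin k) (hi : i < i')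
    (h' : (Function.update u.1 j x i').isRight = true) : (Function.update u.1 j x i).isRight = true := by
  have key : i < j := by
    by_cases e : i' = j
    · exact e ▸ hi
    · rw [Function.update_of_ne e] at h'
      have h2 : ¬ j < i' := fun hc => h.2 i' hc h'
      exact lt_of_lt_of_le hi (not_lt.1 h2)
  rw [Function.update_of_ne key.ne]
  exact h.1 i key

open Classical in
/-- replace the coordinate `j` -/
noncomputable def rp (j : Fin k) (u : PT V W) (x : V j ⊕ W j) : PT V W :=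
  if h : Md j u then ⟨Function.update u.1 j x, Md_upd j u h x⟩ else u

lemma rp_val {j : Fin k} {u : PT V W} (h : Md j u) (x : V j ⊕ W j) : (rp j u x).1 = Function.update u.1 j x := by
  have e : rp j u x = ⟨Function.update u.1 j x, Md_upd j u h x⟩ := dif_pos h
  exact congrArg Subtype.val e

lemma rp_same {j : Fin k} {u : PT V W} (h : Md j u) (x : V j ⊕ W j) : (rp j u x).1 j = x := by
  rw [rp_val h, Function.update_self]

lemma rp_ne {j : Fin k} {u : PT V W} (h : Md j u) (x : V j ⊕ W j) {i : Fin k} (hi : i ≠ j) :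
    (rp j u x).1 i = u.1 i := by
  rw [rp_val h, Function.update_of_ne hi]

lemma ext' {u v : PT V W} (j : Fin k) (h : u.1 j = v.1 j) (h' : ∀ i, i ≠ j → u.1 i = v.1 i) : u = v := by
  apply Subtype.ext
  funext i
  by_cases e : i = j
  · subst e; exact h
  · exact h' i e

lemma Md_congr {j : Fin k} {u v : PT V W} (h' : ∀ i, i ≠ j → u.1 i = v.1 i) (h : Md j u) : Md j v := by
  constructor
  · intro i hi
    rw [← h' i hi.ne]
    exact h.1 i hi
  · intro i hi
    rw [← h' i hi.ne']
    exact h.2 i hi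

lemma Md_rp {j : Fin k} {u : PT V W} (h : Md j u) (x : V j ⊕ W j) : Md j (rp j u x) :=
  Md_congr (fun i hi => (rp_ne h x hi).symm) h

lemma rp_rp {j : Fin k} {u : PT V W} (h : Md j u) (x y : V j ⊕ W j) : rp j (rp j u x) y = rp j u y := by
  apply ext' j
  · rw [rp_same (Md_rp h x), rp_same h]
  · intro i hi
    rw [rp_ne (Md_rp h x) y hi, rp_ne h x hi, rp_ne h y hi]

lemma rp_self {j : Fin k} {u : PT V W} (h : Md j u) {x : V j ⊕ W j} (hx : u.1 j = x) : rp j u x = u := by
  apply ext' j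
  · rw [rp_same h, hx]
  · intro i hi
    rw [rp_ne h x hi]

lemma rp_inj {j : Fin k} {u : PT V W} (h : Md j u) {x y : V j ⊕ W j} (e : rp j u x = rp j u y) : x = y := by
  have h1 : (rp j u x).1 j = (rp j u y).1 j := by rw [e]
  rwa [rp_same h, rp_same h] at h1

lemma Md_of_plev {j : Fin k} {u : PT V W} (h : plev u = j) : Md j u ∧ ∃ v, u.1 j = Sum.inl v := by
  refine ⟨⟨fun i hi => ?_, fun i hi => ?_⟩, ?_⟩
  · rw [right_iff, h]
    exact hi
  · rw [right_iff, h]
    have : (j : ℕ) < i := hi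
    omega
  · have h1 : ¬ (u.1 j).isRight = true := by
      rw [right_iff, h]
      omega
    rcases hu : u.1 j with v | w
    · exact ⟨v, rfl⟩
    · rw [hu] at h1
      exact absurd rfl h1

lemma plev_of_Md {j : Fin k} {u : PT V W} (h : Md j u) {v : V j} (hv : u.1 j = Sum.inl v) : plev u = j := by
  have h1 : ¬ (j : ℕ) < plev u := by
    rw [← right_iff, hv]
    simp
  by_contra hne
  have h2 : plev u < j := by omega
  have h3 : plev u < k := lt_trans h2 j.2
  have h4 := h.1 ⟨plev u, h3⟩ h2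
  rw [right_iff] at h4
  exact lt_irrefl _ h4

variable [∀ j, Fintype (V j)] [∀ j, Fintype (W j)]

lemma mem_pch (ch : ∀ j, V j → Finset (W j)) (u c : PT V W) (j : Fin k) (hj : plev u = j) :
    c ∈ pch ch u ↔ ∃ (v : V j) (w : W j), u.1 j = Sum.inl v ∧ c.1 j = Sum.inr w ∧ w ∈ ch j v ∧
      ∀ i, i ≠ j → c.1 i = u.1 i := by
  unfold pch
  simp only [mem_filter, mem_univ, true_and]
  constructor
  · rintro ⟨j', v, w, h1, h2, h3, h4⟩
    have hjj : j' = j := by
      have a1 : ¬ ((j' : ℕ) < plev u) := by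
        rw [← right_iff, h1]
        simp
      by_contra hne
      have a2 : j < j' := by
        rw [Fin.lt_def]
        have : (j' : ℕ) ≠ j := fun h => hne (Fin.ext h)
        omega
      have a3 := c.2 j j' a2 (by rw [h2]; rfl)
      rw [h4 j (Ne.symm hne), right_iff] at a3
      omega
    subst hjj
    exact ⟨v, w, h1, h2, h3, h4⟩
  · rintro ⟨v, w, h⟩
    exact ⟨j, v, w, h⟩

lemma mem_pch1 (ch : ∀ j, V j → Finset (W j)) {j : Fin k} {t : PT V W} (h : Md j t) (a : V j) (c : PT V W) :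
    c ∈ pch ch (rp j t (Sum.inl a)) ↔ ∃ w ∈ ch j a, c = rp j t (Sum.inr w) := by
  rw [mem_pch ch _ c j (plev_of_Md (Md_rp h _) (rp_same h _))]
  constructor
  · rintro ⟨v, w, h1, h2, h3, h4⟩
    rw [rp_same h] at h1
    have hv : a = v := Sum.inl.inj h1
    subst hv
    refine ⟨w, h3, ext' j ?_ ?_⟩
    · rw [h2, rp_same h]
    · intro i hi
      rw [h4 i hi, rp_ne h _ hi, rp_ne h _ hi]
  · rintro ⟨w, hw, rfl⟩
    refine ⟨a, w, rp_same h _, rp_same h _, hw, ?_⟩
    intro i hi
    rw [rp_ne h _ hi, rp_ne h _ hi]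

lemma mem_pch2 (ch : ∀ j, V j → Finset (W j)) {j : Fin k} {t : PT V W} (h : Md j t) (w : W j) (v : PT V W)
    (hv : plev v = j) : rp j t (Sum.inr w) ∈ pch ch v ↔ ∃ a, w ∈ ch j a ∧ v = rp j t (Sum.inl a) := by
  rw [mem_pch ch v _ j hv]
  constructor
  · rintro ⟨a, w', h1, h2, h3, h4⟩
    rw [rp_same h] at h2
    have hw : w = w' := Sum.inr.inj h2
    subst hw
    refine ⟨a, h3, ext' j ?_ ?_⟩
    · rw [h1, rp_same h]
    · intro i hi
      rw [← h4 i hi, rp_ne h _ hi, rp_ne h _ hi]
  · rintro ⟨a, ha, rfl⟩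
    refine ⟨a, w, rp_same h _, rp_same h _, ha, ?_⟩
    intro i hi
    rw [rp_ne h _ hi, rp_ne h _ hi]

lemma ph1_self {A B : Type} (σ : B → A → ℂ) (x : A ⊕ B) : ph1 σ x x = 1 := by
  rcases x with a | b <;> rfl

omit [∀ j, Fintype (V j)] [∀ j, Fintype (W j)] in
lemma pσ_rp (σ : ∀ j, W j → V j → ℂ) {j : Fin k} {t : PT V W} (h : Md j t) (w : W j) (a : V j) :
    pσ σ (rp j t (Sum.inr w)) (rp j t (Sum.inl a)) = σ j w a := by
  unfold pσ
  rw [Finset.prod_eq_single j]
  · rw [rp_same h, rp_same h]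
    rfl
  · intro i _ hi
    rw [rp_ne h _ hi, rp_ne h _ hi]
    exact ph1_self _ _
  · intro hc
    exact absurd (mem_univ j) hc

end general

theorem core_part (k : ℕ) (V W : Fin k → Type) [∀ j, Fintype (V j)] [∀ j, DecidableEq (V j)] [∀ j, Fintype (W j)]
    [∀ j, DecidableEq (W j)] (d m gg J Q : ℕ → ℕ) (B : ℕ → ℝ)
    (st : ∀ j : Fin k, Stp (V j) (W j) (d j) (m j) (gg j) (J j) (Q j) (B j)) (l : ℕ) (hl : l < k)
    (T U : Finset (PT V W)) (hne : T.Nonempty)
    (hT : ∀ t ∈ T, plev t = l ∧ J l ≤ (pch (fun j => (st j).ch) t ∩ U).card)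
    (hU : ∀ u ∈ U, 2 ≤ (T.filter fun t => u ∈ pch (fun j => (st j).ch) t).card) : Q l < U.card := by
  classical
  obtain ⟨t0, ht0⟩ := hne
  let j : Fin k := ⟨l, hl⟩
  obtain ⟨h, v0, hv0⟩ := Md_of_plev (j := j) (u := t0) (hT t0 ht0).1
  have key := (st j).core (univ.filter fun v : V j => rp j t0 (Sum.inl v) ∈ T)
    (univ.filter fun w : W j => rp j t0 (Sum.inr w) ∈ U)
    ⟨v0, by rw [mem_filter, rp_self h hv0]; exact ⟨mem_univ _, ht0⟩⟩ ?_ ?_
  · refine lt_of_lt_of_le key ?_
    apply Finset.card_le_card_of_injOn (fun w => rp j t0 (Sum.inr w))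
    · intro w hw
      rw [mem_coe, mem_filter] at hw
      exact hw.2
    · intro w _ w' _ e
      exact Sum.inr.inj (rp_inj h e)
  · intro v hv
    rw [mem_filter] at hv
    refine le_trans (hT _ hv.2).2 ?_
    have hsub : pch (fun j => (st j).ch) (rp j t0 (Sum.inl v)) ∩ U ⊆
        ((st j).ch v ∩ univ.filter fun w : W j => rp j t0 (Sum.inr w) ∈ U).image
          (fun w => rp j t0 (Sum.inr w)) := by
      intro c hc
      rw [mem_inter, mem_pch1 _ h] at hc
      obtain ⟨⟨w, hw, rfl⟩, hcU⟩ := hc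
      rw [mem_image]
      exact ⟨w, by rw [mem_inter, mem_filter]; exact ⟨hw, mem_univ _, hcU⟩, rfl⟩
    exact le_trans (Finset.card_le_card hsub) Finset.card_image_le
  · intro w hw
    rw [mem_filter] at hw
    refine le_trans (hU _ hw.2) ?_
    have hsub : (T.filter fun t => rp j t0 (Sum.inr w) ∈ pch (fun j => (st j).ch) t) ⊆
        ((univ.filter fun v : V j => rp j t0 (Sum.inl v) ∈ T).filter fun v => w ∈ (st j).ch v).image
          (fun v => rp j t0 (Sum.inl v)) := by
      intro t ht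
      rw [mem_filter] at ht
      obtain ⟨ht, hc⟩ := ht
      rw [mem_pch2 _ h w t (hT t ht).1] at hc
      obtain ⟨a, ha, rfl⟩ := hc
      rw [mem_image]
      exact ⟨a, by rw [mem_filter, mem_filter]; exact ⟨⟨mem_univ _, ht⟩, ha⟩, rfl⟩
    exact le_trans (Finset.card_le_card hsub) Finset.card_image_le

theorem l2_part (k : ℕ) (V W : Fin k → Type) [∀ j, Fintype (V j)] [∀ j, DecidableEq (V j)] [∀ j, Fintype (W j)]
    [∀ j, DecidableEq (W j)] (d m gg J Q : ℕ → ℕ) (B : ℕ → ℝ)
    (st : ∀ j : Fin k, Stp (V j) (W j) (d j) (m j) (gg j) (J j) (Q j) (B j)) (hm : ∀ j, 1 ≤ m j) (l : ℕ)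
    (hl : l < k) (y : PT V W → ℂ) :
    ∑ c, ‖∑ v ∈ univ.filter (fun v => plev v = l ∧ c ∈ pch (fun j => (st j).ch) v),
        pσ (fun j => (st j).σ) c v * y v‖ ^ 2 ≤ B l * ∑ v, ‖y v‖ ^ 2 := by
  classical
  let j : Fin k := ⟨l, hl⟩
  rcases isEmpty_or_nonempty (V j) with hE | ⟨⟨a0⟩⟩
  · -- the product is empty
    have hg : gg j = 0 := by
      have h1 := (st j).cardV
      rw [Fintype.card_eq_zero] at h1
      rcases Nat.mul_eq_zero.1 h1.symm with h2 | h2
      · have := hm j
        omega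
      · exact h2
    have hW : IsEmpty (W j) := by
      have h1 := (st j).cardW
      rw [hg, mul_zero] at h1
      exact Fintype.card_eq_zero_iff.1 h1
    have hP : IsEmpty (PT V W) := ⟨fun u => by
      rcases u.1 j with v | w
      · exact hE.false v
      · exact hW.false w⟩
    rw [Fintype.sum_empty, Fintype.sum_empty, mul_zero]
  · have hB : 0 ≤ B l := by
      have h1 := (st j).l2 (fun v => if v = a0 then 1 else 0)
      have h2 : ∑ v : V j, ‖(if v = a0 then (1 : ℂ) else 0)‖ ^ 2 = 1 := by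
        rw [Finset.sum_eq_single a0]
        · simp
        · intro b _ hb
          simp [hb]
        · intro hc
          exact absurd (mem_univ a0) hc
      rw [h2, mul_one] at h1
      exact le_trans (Finset.sum_nonneg fun c _ => by positivity) h1
    -- the inner sum
    let S : PT V W → ℂ := fun c => ∑ v ∈ univ.filter (fun v => plev v = l ∧ c ∈ pch (fun j => (st j).ch) v),
        pσ (fun j => (st j).σ) c v * y v
    change ∑ c, ‖S c‖ ^ 2 ≤ _
    let T : Finset (PT V W) := univ.filter fun t => Md j t ∧ t.1 j = Sum.inl a0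
    have hT : ∀ t ∈ T, Md j t ∧ t.1 j = Sum.inl a0 := fun t ht => (mem_filter.1 ht).2
    have hTm : ∀ {u : PT V W}, Md j u → rp j u (Sum.inl a0) ∈ T := fun {u} hu =>
      mem_filter.2 ⟨mem_univ _, Md_rp hu _, rp_same hu _⟩
    have hinj : ∀ t ∈ T, ∀ t' ∈ T, ∀ x x' : V j ⊕ W j, rp j t x = rp j t' x' → t = t' ∧ x = x' := by
      intro t ht t' ht' x x' e
      obtain ⟨h1, h2⟩ := hT t ht
      obtain ⟨h1', h2'⟩ := hT t' ht'
      constructor
      · apply ext' j (h2.trans h2'.symm)
        intro i hi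
        rw [← rp_ne h1 x hi, ← rp_ne h1' x' hi, e]
      · rw [← rp_same h1 x, ← rp_same h1' x', e]
    -- the value of the inner sum
    have hS : ∀ t ∈ T, ∀ w : W j, S (rp j t (Sum.inr w)) =
        ∑ v ∈ univ.filter (fun v => w ∈ (st j).ch v), (st j).σ w v * y (rp j t (Sum.inl v)) := by
      intro t ht w
      obtain ⟨h1, h2⟩ := hT t ht
      symm
      apply Finset.sum_nbij (fun v => rp j t (Sum.inl v))
      · intro v hv
        rw [mem_filter] at hv ⊢
        refine ⟨mem_univ _, plev_of_Md (Md_rp h1 _) (rp_same h1 _), ?_⟩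
        rw [mem_pch1 _ h1]
        exact ⟨w, hv.2, rfl⟩
      · intro v _ v' _ e
        exact Sum.inl.inj (rp_inj h1 e)
      · intro v hv
        rw [mem_coe, mem_filter] at hv
        obtain ⟨_, h3, h4⟩ := hv
        rw [mem_pch2 _ h1 w v h3] at h4
        obtain ⟨a, ha, rfl⟩ := h4
        exact ⟨a, by rw [mem_coe, mem_filter]; exact ⟨mem_univ _, ha⟩, rfl⟩
      · intro v _
        rw [pσ_rp _ h1]
    -- the outer sums
    have hC : ∑ c, ‖S c‖ ^ 2 = ∑ t ∈ T, ∑ w : W j, ‖S (rp j t (Sum.inr w))‖ ^ 2 := by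
      rw [← Finset.sum_product' T univ (fun t w => ‖S (rp j t (Sum.inr w))‖ ^ 2)]
      rw [← Finset.sum_subset (Finset.subset_univ
        ((T ×ˢ (univ : Finset (W j))).image fun p => rp j p.1 (Sum.inr p.2)))]
      · rw [Finset.sum_image]
        intro p hp p' hp' e
        rw [mem_coe, mem_product] at hp hp'
        obtain ⟨e1, e2⟩ := hinj _ hp.1 _ hp'.1 _ _ e
        exact Prod.ext e1 (Sum.inr.inj e2)
      · intro c _ hc
        have h0 : S c = 0 := by
          apply Finset.sum_eq_zero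
          intro v hv
          exfalso
          rw [mem_filter] at hv
          obtain ⟨_, h3, h4⟩ := hv
          obtain ⟨h5, a, ha⟩ := Md_of_plev (j := j) (u := v) h3
          rw [mem_pch _ v c j h3] at h4
          obtain ⟨a', w, _, h7, _, h9⟩ := h4
          apply hc
          rw [mem_image]
          refine ⟨(rp j v (Sum.inl a0), w), mem_product.2 ⟨hTm h5, mem_univ _⟩, ?_⟩
          simp only
          rw [rp_rp h5]
          apply ext' j
          · rw [rp_same h5, h7]
          · intro i hi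
            rw [rp_ne h5 _ hi, h9 i hi]
        rw [h0]
        simp
    have hV : ∑ t ∈ T, ∑ v : V j, ‖y (rp j t (Sum.inl v))‖ ^ 2 ≤ ∑ v, ‖y v‖ ^ 2 := by
      rw [← Finset.sum_product' T univ (fun t v => ‖y (rp j t (Sum.inl v))‖ ^ 2)]
      have h3 : ∑ p ∈ T ×ˢ (univ : Finset (V j)), ‖y (rp j p.1 (Sum.inl p.2))‖ ^ 2 =
          ∑ v ∈ (T ×ˢ (univ : Finset (V j))).image fun p => rp j p.1 (Sum.inl p.2), ‖y v‖ ^ 2 := by
        rw [Finset.sum_image]
        intro p hp p' hp' e
        rw [mem_coe, mem_product] at hp hp'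
        obtain ⟨e1, e2⟩ := hinj _ hp.1 _ hp'.1 _ _ e
        exact Prod.ext e1 (Sum.inl.inj e2)
      rw [h3]
      exact Finset.sum_le_sum_of_subset_of_nonneg (Finset.subset_univ _) fun _ _ _ => by positivity
    rw [hC]
    refine le_trans (Finset.sum_le_sum fun t ht => ?_) (le_trans (le_of_eq (Finset.mul_sum _ _ _).symm)
      (mul_le_mul_of_nonneg_left hV hB))
    have h4 := (st j).l2 (fun v => y (rp j t (Sum.inl v)))
    refine le_trans (le_of_eq (Finset.sum_congr rfl fun w _ => ?_)) h4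
    rw [hS t ht w]

theorem hPRC0 : ∀ (k : ℕ) (V W : Fin k → Type) [∀ j, Fintype (V j)] [∀ j, DecidableEq (V j)] [∀ j, Fintype (W j)]
    [∀ j, DecidableEq (W j)] (d m gg J Q : ℕ → ℕ) (B : ℕ → ℝ)
    (st : ∀ j : Fin k, Stp (V j) (W j) (d j) (m j) (gg j) (J j) (Q j) (B j)), (∀ j, 1 ≤ m j) →
    (∀ l, l < k → ∀ y : PT V W → ℂ,
      ∑ c, ‖∑ v ∈ univ.filter (fun v => plev v = l ∧ c ∈ pch (fun j => (st j).ch) v),
        pσ (fun j => (st j).σ) c v * y v‖ ^ 2 ≤ B l * ∑ v, ‖y v‖ ^ 2) ∧
    ∀ l, l < k → ∀ T U : Finset (PT V W), T.Nonempty →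
      (∀ t ∈ T, plev t = l ∧ J l ≤ (pch (fun j => (st j).ch) t ∩ U).card) →
      (∀ u ∈ U, 2 ≤ (T.filter fun t => u ∈ pch (fun j => (st j).ch) t).card) → Q l < U.card := by
  intro k V W _ _ _ _ d m gg J Q B st hm
  exact ⟨fun l hl y => l2_part k V W d m gg J Q B st hm l hl y,
    fun l hl T U hne hT hU => core_part k V W d m gg J Q B st l hl T U hne hT hU⟩

end Pool.Agent.Helper28.XP
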